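import Pool.Agent.Helper45.FG.St

/-! # Project FG, module GWI: Galois gap of a square root -/

set_option autoImplicit false

namespace Pool.Agent.Helper7.FG

open Pool.Agent.Helper45.FG

theorem hGWI : StGWI := by
  intro γ x m hx hm z hz
  left
  have h1 : Polynomial.aeval x ((Polynomial.X : Polynomial ℚ) ^ 2 - Polynomial.C (m : ℚ)) = 0 := by
    rw [map_sub, map_pow, Polynomial.aeval_X, Polynomial.aeval_C, hm]
    simp
  obtain ⟨q, hq⟩ := minpoly.dvd ℚ x h1
  have h2 : Polynomial.aeval z ((Polynomial.X : Polynomial ℚ) ^ 2 - Polynomial.C (m : ℚ)) = 0 := by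
    rw [hq, map_mul, hz, zero_mul]
  rw [map_sub, map_pow, Polynomial.aeval_X, Polynomial.aeval_C, sub_eq_zero] at h2
  have h3 : ‖z‖ ^ 2 = x ^ 2 := by
    rw [hm, ← norm_pow, h2]
    simp
  have h4 := abs_eq_abs.2 (sq_eq_sq_iff_eq_or_eq_neg.1 h3)
  rwa [abs_of_nonneg (norm_nonneg z), abs_of_pos hx] at h4

end Pool.Agent.Helper7.FG
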