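import Pool.Agent.Helper45.FG.St2

/-!
# Project FG, module COC: the integers of a real number field are cocompact at the real places
-/

set_option autoImplicit false

namespace Pool.Agent.Helper7.FG

open Pool.Agent.Helper45.FG
open scoped BigOperators NumberField

/-- The characters given by the automorphisms are linearly independent over the reals. -/
private lemma indep (K : IntermediateField ℚ ℝ) (hf : FiniteDimensional ℚ K)
    (c : (K ≃ₐ[ℚ] K) → ℝ) (h : ∀ y : K, ∑ t : K ≃ₐ[ℚ] K, c t * ((t y : K) : ℝ) = 0) :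
    ∀ t, c t = 0 := by
  let φ : (K ≃ₐ[ℚ] K) → (K →* ℝ) := fun t =>
    ((K.val : K →ₐ[ℚ] ℝ) : K →* ℝ).comp ((t : K →ₐ[ℚ] K) : K →* K)
  have hφ : Function.Injective φ := by
    intro t s hts
    apply AlgEquiv.ext
    intro y
    have h1 : φ t y = φ s y := by rw [hts]
    exact Subtype.ext h1
  have hli := (linearIndependent_monoidHom K ℝ).comp φ hφ
  rw [Fintype.linearIndependent_iff] at hli
  apply hli
  funext y
  have := h y
  simpa [φ] using this

/-- The values at all automorphisms of the elements of a rational basis span the full space. -/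
private lemma surj (K : IntermediateField ℚ ℝ) (hf : FiniteDimensional ℚ K) {ι : Type}
    [Fintype ι] (b : Module.Basis ι ℚ K) (p : (K ≃ₐ[ℚ] K) → ℝ) :
    ∃ a : ι → ℝ, ∀ t : K ≃ₐ[ℚ] K, ∑ j, a j * ((t (b j) : K) : ℝ) = p t := by
  classical
  let L : (ι → ℝ) →ₗ[ℝ] ((K ≃ₐ[ℚ] K) → ℝ) :=
    { toFun := fun a t => ∑ j, a j * ((t (b j) : K) : ℝ)
      map_add' := by
        intro x y
        funext t
        simp only [Pi.add_apply, add_mul, Finset.sum_add_distrib]
      map_smul' := by
        intro r x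
        funext t
        simp only [Pi.smul_apply, smul_eq_mul, RingHom.id_apply, Finset.mul_sum, mul_assoc] }
  have hL : LinearMap.range L = ⊤ := by
    by_contra hne
    obtain ⟨f, hf0, hker⟩ := Submodule.exists_le_ker_of_lt_top _ (lt_top_iff_ne_top.2 hne)
    apply hf0
    have hfv : ∀ q : (K ≃ₐ[ℚ] K) → ℝ, f q = ∑ t, f (Pi.single t 1) * q t := by
      intro q
      conv_lhs => rw [pi_eq_sum_univ' q]
      rw [map_sum]
      refine Finset.sum_congr rfl fun t _ => ?_
      rw [map_smul, smul_eq_mul, mul_comm]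
    have hb : ∀ j, ∑ t : K ≃ₐ[ℚ] K, f (Pi.single t 1) * ((t (b j) : K) : ℝ) = 0 := by
      intro j
      have h1 : f (L (Pi.single j 1)) = 0 := hker (LinearMap.mem_range_self L _)
      rw [hfv] at h1
      have h2 : ∀ t : K ≃ₐ[ℚ] K, L (Pi.single j 1) t = ((t (b j) : K) : ℝ) := by
        intro t
        change ∑ i, (Pi.single j (1 : ℝ) : ι → ℝ) i * ((t (b i) : K) : ℝ) = _
        rw [Finset.sum_eq_single j]
        · simp
        · intro i _ hij
          simp [Pi.single_apply, hij]
        · intro hj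
          exact absurd (Finset.mem_univ j) hj
      simpa only [h2] using h1
    let F : K →ₗ[ℚ] ℝ :=
      ∑ t : K ≃ₐ[ℚ] K, (f (Pi.single t 1)) •
        ((K.val.toLinearMap).comp ((t : K →ₐ[ℚ] K).toLinearMap))
    have hF : ∀ y, F y = ∑ t : K ≃ₐ[ℚ] K, f (Pi.single t 1) * ((t y : K) : ℝ) := by
      intro y
      simp [F]
    have hF0 : F = 0 := by
      apply b.ext
      intro j
      rw [hF, hb j]
      rfl
    have hc := indep K hf (fun t => f (Pi.single t 1)) (by
      intro y
      rw [← hF, hF0]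
      rfl)
    apply LinearMap.ext
    intro q
    rw [hfv]
    simp [hc]
  obtain ⟨a, ha⟩ := LinearMap.range_eq_top.1 hL p
  exact ⟨a, fun t => congrFun ha t⟩

theorem hCOC : StCOC := by
  classical
  intro K hfin _hgal
  haveI : NumberField K := { to_charZero := inferInstance, to_finiteDimensional := hfin }
  let b := NumberField.integralBasis K
  refine ⟨1 + ∑ t : K ≃ₐ[ℚ] K, ∑ j, |((t (b j) : K) : ℝ)|, ?_, ?_⟩
  · have : 0 ≤ ∑ t : K ≃ₐ[ℚ] K, ∑ j, |((t (b j) : K) : ℝ)| :=
      Finset.sum_nonneg fun t _ => Finset.sum_nonneg fun j _ => abs_nonneg _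
    linarith
  · intro p
    obtain ⟨a, ha⟩ := surj K hfin b p
    refine ⟨∑ j, ((⌊a j⌋ : ℤ) : K) * b j, ?_, ?_⟩
    · refine IsIntegral.sum _ fun j _ => ?_
      refine IsIntegral.mul ?_ ?_
      · exact isIntegral_algebraMap (R := ℤ) (A := K) (x := ⌊a j⌋)
      · have : b j = algebraMap (𝓞 K) K (NumberField.RingOfIntegers.basis K j) :=
          NumberField.integralBasis_apply K j
        rw [this]
        exact NumberField.RingOfIntegers.isIntegral_coe _
    · intro t
      have h1 : ((t (∑ j, ((⌊a j⌋ : ℤ) : K) * b j) : K) : ℝ)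
          = ∑ j, (⌊a j⌋ : ℝ) * ((t (b j) : K) : ℝ) := by
        rw [map_sum]
        push_cast
        refine Finset.sum_congr rfl fun j _ => ?_
        rw [map_mul, map_intCast]
        push_cast
        ring
      rw [h1, ← ha t, ← Finset.sum_sub_distrib]
      refine (Finset.abs_sum_le_sum_abs _ _).trans ?_
      have h2 : ∀ j ∈ Finset.univ, |(⌊a j⌋ : ℝ) * ((t (b j) : K) : ℝ) - a j * ((t (b j) : K) : ℝ)|
          ≤ |((t (b j) : K) : ℝ)| := by
        intro j _
        rw [← sub_mul, abs_mul]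
        have h3 : |(⌊a j⌋ : ℝ) - a j| ≤ 1 := by
          rw [abs_le]
          constructor
          · linarith [Int.lt_floor_add_one (a j)]
          · linarith [Int.floor_le (a j)]
        calc |(⌊a j⌋ : ℝ) - a j| * |((t (b j) : K) : ℝ)| ≤ 1 * |((t (b j) : K) : ℝ)| :=
              mul_le_mul_of_nonneg_right h3 (abs_nonneg _)
          _ = _ := one_mul _
      refine (Finset.sum_le_sum h2).trans ?_
      have h4 : ∑ j, |((t (b j) : K) : ℝ)| ≤ ∑ t : K ≃ₐ[ℚ] K, ∑ j, |((t (b j) : K) : ℝ)| :=
        Finset.single_le_sum (f := fun t : K ≃ₐ[ℚ] K => ∑ j, |((t (b j) : K) : ℝ)|)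
          (fun t _ => Finset.sum_nonneg fun j _ => abs_nonneg _) (Finset.mem_univ t)
      linarith

end Pool.Agent.Helper7.FG
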